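import Pool.Agent.Helper76.TK2.StA

/-!
# Project TK2, MODULE BAS2: an integral family of symbols with odd determinant of the twisted values
-/

set_option autoImplicit false

namespace Pool.Agent.Helper62.TK2

open Pool.Agent.Helper76.TK2 Pool.Agent.Helper14.CV Pool.Agent.Helper14.TT

private theorem odd_det {ι : Type} [Fintype ι] [DecidableEq ι] (k1 k2 : ι → ℕ)
    (hinj : ∀ t u, k1 t = k1 u → k2 t = k2 u → t = u) (M : Matrix ι ι ℤ)
    (hd : ∀ t, ((M t t : ℤ) : ZMod 2) = 1)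
    (hM : ∀ t u, ((M t u : ℤ) : ZMod 2) ≠ 0 → k1 u < k1 t ∨ (k1 u = k1 t ∧ k2 u ≤ k2 t)) :
    Odd M.det := by
  have : Fact (Nat.Prime 2) := ⟨Nat.prime_two⟩
  by_contra h0
  rw [Int.not_odd_iff_even, even_iff_two_dvd] at h0
  have h00 : ((M.det : ℤ) : ZMod 2) = 0 := by
    rw [ZMod.intCast_zmod_eq_zero_iff_dvd]
    exact_mod_cast h0
  have h1 : (M.map (fun x : ℤ => (x : ZMod 2))).det = 0 := by
    have := Int.cast_det (R := ZMod 2) M
    rw [h00] at this
    exact this.symm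
  obtain ⟨v, hv, hz⟩ := Matrix.exists_vecMul_eq_zero_iff.2 h1
  have hne : (Finset.univ.filter fun t => v t ≠ 0).Nonempty := by
    by_contra hc
    rw [Finset.not_nonempty_iff_eq_empty, Finset.filter_eq_empty_iff] at hc
    apply hv
    funext t
    simpa using hc (Finset.mem_univ t)
  obtain ⟨t0, ht0, hmax⟩ := Finset.exists_max_image _ (fun t => (toLex (k1 t, k2 t) : ℕ ×ₗ ℕ)) hne
  have hz0 := congrFun hz t0
  rw [Matrix.vecMul, dotProduct] at hz0
  rw [Finset.sum_eq_single t0] at hz0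
  · simp only [Matrix.map_apply, hd, mul_one, Pi.zero_apply] at hz0
    exact (Finset.mem_filter.1 ht0).2 hz0
  · intro t _ htn
    by_cases hvt : v t = 0
    · rw [hvt, zero_mul]
    · by_cases hm : ((M t t0 : ℤ) : ZMod 2) = 0
      · simp only [Matrix.map_apply, hm, mul_zero]
      · exfalso
        have h2 := hmax t (Finset.mem_filter.2 ⟨Finset.mem_univ _, hvt⟩)
        simp only [Prod.Lex.le_iff, ofLex_toLex] at h2
        have h3 := hM t t0 hm
        apply htn
        apply hinj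
        · omega
        · omega
  · intro h
    exact absurd (Finset.mem_univ _) h

/-- The potential `G(2^r p, q)`. -/
private def Go (r : ℕ) (G : ℤ → ℤ → ℤ) : ℤ → ℤ → ℤ := fun p q => G (2 ^ r * p) q

private lemma two_or (r : ℕ) {p q : ℤ} (h : p ≠ 0 ∨ q ≠ 0) : (2 ^ r * p ≠ 0 ∨ q ≠ 0) := by
  rcases h with h0 | h0
  · exact Or.inl (mul_ne_zero (by positivity) h0)
  · exact Or.inr h0

private lemma sym_Go {r s : ℕ} {G : ℤ → ℤ → ℤ} (h : Sym r s G) : Sym 0 (r + s) (Go r G) := by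
  refine ⟨?_, ?_⟩
  · intro k p q hk hpq
    have e := h.1 k (2 ^ r * p) q hk (two_or r hpq)
    have e1 : 2 ^ r * (k * p) = k * (2 ^ r * p) := by ring
    simp only [Go]
    rw [e1, e]
  · intro a b c d hdet _ hc
    obtain ⟨c', hc'⟩ := hc
    obtain ⟨k, hk⟩ := h.2 a (2 ^ r * b) (2 ^ s * c') d
      (by rw [← hdet, hc', pow_add]; ring) (Dvd.intro _ rfl) (Dvd.intro _ rfl)
    refine ⟨k, ?_⟩
    intro p q hpq
    have e := hk (2 ^ r * p) q (two_or r hpq)
    simp only [act, Go] at e ⊢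
    have e1 : 2 ^ r * (a * p + b * q) = a * (2 ^ r * p) + 2 ^ r * b * q := by ring
    have e2 : c * p + d * q = 2 ^ s * c' * (2 ^ r * p) + d * q := by
      rw [hc', pow_add]
      ring
    rw [e1, e2, e]

private lemma Tl_Go (l r : ℕ) (G : ℤ → ℤ → ℤ) : Tl l 1 (Go r G) = Go r (Tl l (2 ^ r) G) := by
  funext p q
  simp only [Tl, Go]
  congr 1
  · congr 1
    ring
  · refine Finset.sum_congr rfl ?_
    intro j _
    congr 1
    ring

private lemma homog_Tl {G : ℤ → ℤ → ℤ} (l : ℕ) (hl : 0 < l) (m : ℤ) (h : Homog G) :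
    Homog (Tl l m G) := by
  intro k p q hk hpq
  have hl0 : (l : ℤ) ≠ 0 := by exact_mod_cast hl.ne'
  simp only [Tl]
  congr 1
  · have e := h k (l * p) q hk (by
      rcases hpq with h0 | h0
      · exact Or.inl (mul_ne_zero hl0 h0)
      · exact Or.inr h0)
    rw [← e]
    congr 1
    ring
  · refine Finset.sum_congr rfl ?_
    intro j _
    have e := h k (p + m * j * q) (l * q) hk (by
      by_cases hq : q = 0
      · left
        rcases hpq with h0 | h0
        · rw [hq, mul_zero, add_zero]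
          exact h0
        · exact absurd hq h0
      · exact Or.inr (mul_ne_zero hl0 hq))
    rw [← e]
    congr 1
    · ring
    · ring

private lemma iter_Go (l r : ℕ) (G : ℤ → ℤ → ℤ) (i : ℕ) :
    (Tl l 1)^[i] (Go r G) = Go r ((Tl l (2 ^ r))^[i] G) := by
  induction i with
  | zero => rfl
  | succ i ih => rw [Function.iterate_succ_apply', Function.iterate_succ_apply', ih, Tl_Go]

private lemma iter_homog {G : ℤ → ℤ → ℤ} (l : ℕ) (hl : 0 < l) (m : ℤ) (h : Homog G) (i : ℕ) :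
    Homog ((Tl l m)^[i] G) := by
  induction i with
  | zero => exact h
  | succ i ih =>
    rw [Function.iterate_succ_apply']
    exact homog_Tl l hl m ih

/-- transport of an integral symbol of level `(r, s)` to level `(0, r + s)` -/
private theorem unbZ (D r s : ℕ) (G : ℤ → ℤ → ℤ) (hG : Sym r s G) :
    Sym 0 (r + s) (Go r G) ∧ ∀ i j : ℕ, evXb D 1 (Go r G) i j = evXb D (2 ^ r) G i j := by
  refine ⟨sym_Go hG, ?_⟩
  intro i j
  unfold evXb
  rw [iter_Go, iter_Go]
  have hH : Homog ((Tl 3 (2 ^ r))^[i] ((Tl 5 (2 ^ r))^[j] G)) :=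
    iter_homog 3 (by norm_num) _ (iter_homog 5 (by norm_num) _ hG.1 j) i
  have e := hH (2 ^ r) 1 0 (by positivity) (Or.inl one_ne_zero)
  rw [mul_zero] at e
  unfold eXb
  refine Finset.sum_congr rfl fun a _ => ?_
  simp only [Go]
  rw [e, one_mul]

private theorem ok_ne {D : ℕ} (h : Okd D) : D ≠ 0 := by
  rcases h with ⟨h1, -⟩ | h1 | ⟨l, h1, -, h2⟩
  · exact h1.ne_zero
  · omega
  · have := h1.pos
    omega

private theorem core (D r s N n : ℕ) (hD : Okd D) (I : Finset (ℕ × ℕ))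
    (hI : ∀ t ∈ I, 2 * t.1 + 2 * t.2 + 1 < 2 ^ r ∧ t.1 + 2 * t.2 < 2 ^ s ∧ 1 ≤ t.1 ∧ shd D ≤ t.2)
    (hN : I.card = N) (hn : r + 1 + (s + 1) = n) (hs : 1 ≤ s) (hrs : 3 ≤ r + s)
    (hTri : TriD) (hLif : LifT) :
    ∃ (G : Fin N → ℤ → ℤ → ℤ) (ij : Fin N → ℕ × ℕ), (∀ k, Sym 0 n (G k)) ∧
      Odd (Matrix.det (Matrix.of fun k l => evXb D 1 (G k) (ij l).1 (ij l).2)) := by
  have h1 : ∀ t : I, ∃ G : ℤ → ℤ → ℤ, Sym 0 n G ∧
      (((evXb D 1 G (t.1.1 - 1) (t.1.2 - shd D) : ℤ) : ZMod 2) = 1) ∧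
      ∀ i j, (((evXb D 1 G i j : ℤ) : ZMod 2) ≠ 0 →
        (3 * (i + 1) + 4 * (j + shd D) < 3 * t.1.1 + 4 * t.1.2 ∨
          (3 * (i + 1) + 4 * (j + shd D) = 3 * t.1.1 + 4 * t.1.2 ∧
            (i + 1) + 2 * (j + shd D) ≤ t.1.1 + 2 * t.1.2))) := by
    intro t
    obtain ⟨ha, hb, hc, hd⟩ := hI t.1 t.2
    obtain ⟨g, hg, hg1, hg2⟩ := hTri D r s t.1.1 t.1.2 hD hs hrs hc hd ha hb
    obtain ⟨G, hG, -, hGe⟩ := hLif r s g hg
    obtain ⟨hS, hE⟩ := unbZ D (r + 1) (s + 1) G hG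
    refine ⟨Go (r + 1) G, hn ▸ hS, ?_, ?_⟩
    · rw [hE, hGe D _ _ (ok_ne hD), hg1]
    · intro i j hij
      apply hg2
      rw [← hGe D _ _ (ok_ne hD), ← hE]
      exact hij
  choose G hS hd hM using h1
  let M : Matrix I I ℤ := Matrix.of fun t u => evXb D 1 (G t) (u.1.1 - 1) (u.1.2 - shd D)
  have hdet : Odd M.det := by
    refine odd_det (fun t : I => 3 * t.1.1 + 4 * t.1.2) (fun t : I => t.1.1 + 2 * t.1.2) ?_ M
      (fun t => hd t) (fun t u htu => ?_)
    · intro t u h2 h3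
      apply Subtype.ext
      apply Prod.ext
      · omega
      · omega
    · have h2 := hM t _ _ htu
      obtain ⟨-, -, hc, hd⟩ := hI u.1 u.2
      have e1 : u.1.1 - 1 + 1 = u.1.1 := by omega
      have e2 : u.1.2 - shd D + shd D = u.1.2 := by omega
      rw [e1, e2] at h2
      exact h2
  let e : Fin N ≃ I := (I.equivFinOfCardEq hN).symm
  refine ⟨fun k => G (e k), fun l => ((e l).1.1 - 1, (e l).1.2 - shd D), fun k => hS (e k), ?_⟩
  have he : (Matrix.of fun k l => evXb D 1 (G (e k)) ((e l).1.1 - 1) ((e l).1.2 - shd D)) = M.submatrix e e := rfl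
  show Odd (Matrix.of fun k l => evXb D 1 (G (e k)) ((e l).1.1 - 1) ((e l).1.2 - shd D)).det
  rw [he, Matrix.det_submatrix_equiv_self]
  exact hdet

private theorem DT_small (D n : ℕ) (hn : n ≤ 4) : DT D n = 0 := by
  unfold DT
  refine Finset.sum_eq_zero fun m hm => ?_
  have := Finset.mem_range.1 hm
  unfold dT
  rw [if_pos (by omega)]

theorem hBas2 : StBAS2 := by
  intro hTri hLif hCnt D n hD hn
  by_cases h4 : n ≤ 4
  · have h0 := DT_small D n h4
    have hE : IsEmpty (Fin (DT D n)) := by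
      rw [h0]
      infer_instance
    refine ⟨fun k => (hE.false k).elim, fun k => (hE.false k).elim, fun k => (hE.false k).elim, ?_⟩
    rw [Matrix.det_isEmpty]
    exact odd_one
  rcases Nat.even_or_odd' n with ⟨k, hk | hk⟩
  · subst hk
    refine core D (k - 1) (k - 1) _ _ hD _ ?_ (hCnt.1 D k hD (by omega)) (by omega) (by omega)
      (by omega) hTri hLif
    intro t ht
    exact (Finset.mem_filter.1 ht).2
  · subst hk
    refine core D k (k - 1) _ _ hD _ ?_ (hCnt.2 D k hD (by omega)) (by omega) (by omega)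
      (by omega) hTri hLif
    intro t ht
    exact (Finset.mem_filter.1 ht).2

end Pool.Agent.Helper62.TK2
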